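import Mathlib

/-!
# `π₃` is not bounded by a function of the separation dimension
-/

set_option autoImplicit false

open Finset

namespace Pool.Agent.Results.MP_38bec9_co.NotBounded

/-! ### Definitions -/

/-- The order given by the enumeration `σ` puts `a, b` before `c, d` or `c, d` before `a, b`. -/
def Separates {V : Type} {N : ℕ} (σ : V ≃ Fin N) (a b c d : V) : Prop :=
  (σ a < σ c ∧ σ a < σ d ∧ σ b < σ c ∧ σ b < σ d) ∨
    (σ c < σ a ∧ σ c < σ b ∧ σ d < σ a ∧ σ d < σ b)

/-- A pairwise suitable family of linear orders (permutations) of the vertex set. -/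
def PairwiseSuitable {V : Type} [Fintype V] (G : SimpleGraph V)
    (F : Finset (V ≃ Fin (Fintype.card V))) : Prop :=
  ∀ a b c d, G.Adj a b → G.Adj c d → a ≠ c → a ≠ d → b ≠ c → b ≠ d → ∃ σ ∈ F, Separates σ a b c d

/-- The separation dimension. -/
noncomputable def sepDim {V : Type} [Fintype V] (G : SimpleGraph V) : ℕ :=
  sInf {n | ∃ F : Finset (V ≃ Fin (Fintype.card V)), PairwiseSuitable G F ∧ F.card = n}

/-- Three-space. -/
abbrev E3 := EuclideanSpace ℝ (Fin 3)

/-- `P` is the set of the (nonzero) normals of finitely many pairwise non-parallel planes. -/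
def IsPlaneSet (P : Finset E3) : Prop :=
  (∀ a ∈ P, a ≠ 0) ∧ ∀ a ∈ P, ∀ b ∈ P, a ≠ b → LinearIndependent ℝ ![a, b]

/-- The set `A` lies strictly below and the set `B` strictly above the plane
`{z | ⟪a, z⟫ = c}`. -/
def Apart (a : E3) (c : ℝ) (A B : Set E3) : Prop :=
  (∀ z ∈ A, inner ℝ a z < c) ∧ ∀ z ∈ B, c < inner ℝ a z

/-- `φ` is a `P`-separating embedding of `G`. -/
def PSeparating {V : Type} (G : SimpleGraph V) (P : Finset E3) (φ : V → E3) : Prop :=
  Function.Injective φ ∧
    ∀ u v x y, G.Adj u v → G.Adj x y → u ≠ x → u ≠ y → v ≠ x → v ≠ y →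
      ∃ a ∈ P, ∃ c : ℝ, Apart a c (segment ℝ (φ u) (φ v)) (segment ℝ (φ x) (φ y)) ∨
        Apart a c (segment ℝ (φ x) (φ y)) (segment ℝ (φ u) (φ v))

/-- `π₃ G`, the least size of a set `P` of pairwise non-parallel planes with a `P`-separating
embedding of `G` (`⊤` if there were none). -/
noncomputable def pi3 {V : Type} (G : SimpleGraph V) : ℕ∞ :=
  ⨅ (P : Finset E3) (φ : V → E3) (_ : IsPlaneSet P) (_ : PSeparating G P φ), (P.card : ℕ∞)

/-! ### Counting sign patterns of linear forms -/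

lemma sum_choose_le (M D : ℕ) : ∑ k ∈ Finset.Iic D, M.choose k ≤ (M + 1) ^ D := by
  rw [add_pow]
  have h : Finset.Iic D = Finset.range (D + 1) := by
    ext x
    simp
  rw [h]
  refine Finset.sum_le_sum fun k hk => ?_
  rw [Finset.mem_range, Nat.lt_succ_iff] at hk
  rw [one_pow, mul_one]
  exact (Nat.choose_le_pow M k).trans (Nat.le_mul_of_pos_right _ (Nat.choose_pos hk))

lemma pattern_count {ι E : Type} [Fintype ι] [DecidableEq ι] [AddCommGroup E] [Module ℝ E]
    [FiniteDimensional ℝ E] (f : ι → E →ₗ[ℝ] ℝ) (A : Finset (Finset ι))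
    (hA : ∀ S ∈ A, ∃ x : E, ∀ i, i ∈ S ↔ 0 < f i x) :
    A.card ≤ (Fintype.card ι + 1) ^ Module.finrank ℝ E := by
  have hdim : A.vcDim ≤ Module.finrank ℝ E := by
    unfold Finset.vcDim
    refine Finset.sup_le fun S hS => ?_
    rw [Finset.mem_shatterer] at hS
    have hli : LinearIndependent ℝ (fun i : S => f i) := by
      rw [Fintype.linearIndependent_iff]
      by_contra hcon
      push Not at hcon
      obtain ⟨g, hg, i0, hi0⟩ := hcon
      -- a relation with a positive coefficient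
      have key : ∀ g : S → ℝ, ∑ i, g i • f i = 0 → (∃ i, 0 < g i) → False := by
        intro g hg ⟨i1, hi1⟩
        obtain ⟨T, hT, hST⟩ := hS (t := (Finset.univ.filter fun i : S => 0 < g i).image
          (fun i : S => (i : ι))) (by
            intro x hx
            rw [Finset.mem_image] at hx
            obtain ⟨y, _, rfl⟩ := hx
            exact y.2)
        obtain ⟨x, hx⟩ := hA T hT
        have hpos : ∀ i : S, 0 < f i x ↔ 0 < g i := by
          intro i
          rw [← hx]
          constructor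
          · intro h
            have h2 : (i : ι) ∈ S ∩ T := Finset.mem_inter.2 ⟨i.2, h⟩
            rw [hST, Finset.mem_image] at h2
            obtain ⟨y, hy, hy2⟩ := h2
            rw [Finset.mem_filter] at hy
            have : y = i := Subtype.ext hy2
            rw [← this]
            exact hy.2
          · intro h
            have h2 : (i : ι) ∈ S ∩ T := by
              rw [hST, Finset.mem_image]
              exact ⟨i, Finset.mem_filter.2 ⟨Finset.mem_univ _, h⟩, rfl⟩
            exact (Finset.mem_inter.1 h2).2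
        have h3 := LinearMap.congr_fun hg x
        simp only [LinearMap.sum_apply, LinearMap.smul_apply, smul_eq_mul,
          LinearMap.zero_apply] at h3
        have h4 : 0 < ∑ i : S, g i * f i x := by
          refine Finset.sum_pos' (fun i _ => ?_) ⟨i1, Finset.mem_univ _,
            mul_pos hi1 ((hpos i1).2 hi1)⟩
          by_cases h5 : 0 < g i
          · exact (mul_pos h5 ((hpos i).2 h5)).le
          · have h6 : ¬ 0 < f i x := fun h => h5 ((hpos i).1 h)
            nlinarith [not_lt.1 h5, not_lt.1 h6]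
        linarith
      rcases lt_or_gt_of_ne hi0 with h | h
      · refine key (fun i => - g i) ?_ ⟨i0, by linarith⟩
        have : ∑ i, (- g i) • f i = - ∑ i, g i • f i := by
          rw [← Finset.sum_neg_distrib]
          refine Finset.sum_congr rfl fun i _ => ?_
          ext y
          simp
        rw [this, hg, neg_zero]
      · exact key g hg ⟨i0, h⟩
    have h1 := hli.fintype_card_le_finrank
    rw [Fintype.card_coe] at h1
    have h2 : Module.finrank ℝ (E →ₗ[ℝ] ℝ) = Module.finrank ℝ E :=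
      Subspace.dual_finrank_eq
    rw [← h2]
    exact h1
  calc A.card ≤ A.shatterer.card := Finset.card_le_card_shatterer A
    _ ≤ ∑ k ∈ Finset.Iic A.vcDim, (Fintype.card ι).choose k := Finset.card_shatterer_le_sum_vcDim
    _ ≤ (Fintype.card ι + 1) ^ A.vcDim := sum_choose_le _ _
    _ ≤ (Fintype.card ι + 1) ^ Module.finrank ℝ E :=
        Nat.pow_le_pow_right (by omega) hdim

/-! ### Windows -/

section windows

variable {V : Type} {m : ℕ}

/-- rank within `W` -/
def rk (r : Fin m → V → ℕ) (i : Fin m) (W : Finset V) (v : V) : ℕ :=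
  (W.filter fun w => r i w < r i v).card

/-- block number `j` of size `c` of `W` in the order `i` -/
def child (r : Fin m → V → ℕ) (c : ℕ) (i : Fin m) (j : ℕ) (W : Finset V) : Finset V :=
  W.filter fun v => rk r i W v / c = j

/-- `a` and `b` are in a common window of level `t` -/
def near (r : Fin m → V → ℕ) (s w : ℕ) : ℕ → Finset V → V → V → Prop
  | 0, W, a, b => a ∈ W ∧ b ∈ W
  | t + 1, W, a, b => ∃ i : Fin m, ∃ j : ℕ, near r s w t (child r (s ^ t * w) i j W) a b

lemma near_mem (r : Fin m → V → ℕ) (s w : ℕ) : ∀ (t : ℕ) (W : Finset V) (a b : V),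
    near r s w t W a b → a ∈ W ∧ b ∈ W
  | 0, _, _, _, h => h
  | t + 1, W, a, b, h => by
    obtain ⟨i, j, h⟩ := h
    have := near_mem r s w t _ a b h
    exact ⟨Finset.mem_of_mem_filter _ this.1, Finset.mem_of_mem_filter _ this.2⟩

lemma rk_lt {r : Fin m → V → ℕ} {i : Fin m} {W : Finset V} {u v : V} (hu : u ∈ W)
    (h : r i u < r i v) : rk r i W u < rk r i W v := by
  unfold rk
  apply Finset.card_lt_card
  rw [Finset.ssubset_iff_of_subset]
  · exact ⟨u, by simp [hu, h], by simp⟩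
  · intro x hx
    rw [Finset.mem_filter] at hx ⊢
    exact ⟨hx.1, hx.2.trans h⟩

lemma rk_le {r : Fin m → V → ℕ} {i : Fin m} {W : Finset V} {u v : V}
    (h : r i u ≤ r i v) : rk r i W u ≤ rk r i W v := by
  unfold rk
  apply Finset.card_le_card
  intro x hx
  rw [Finset.mem_filter] at hx ⊢
  exact ⟨hx.1, hx.2.trans_le h⟩

lemma rk_lt_card {r : Fin m → V → ℕ} {i : Fin m} {W : Finset V} {v : V} (hv : v ∈ W) :
    rk r i W v < W.card := by
  unfold rk
  apply Finset.card_lt_card
  rw [Finset.ssubset_iff_of_subset (Finset.filter_subset _ _)]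
  exact ⟨v, hv, by simp⟩

lemma child_card {r : Fin m → V → ℕ} (hr : ∀ i, Function.Injective (r i)) {c : ℕ} (hc : 0 < c)
    (i : Fin m) (j : ℕ) (W : Finset V) : (child r c i j W).card ≤ c := by
  have h1 : (child r c i j W).card ≤ (Finset.Ico (j * c) ((j + 1) * c)).card := by
    refine Finset.card_le_card_of_injOn (fun v => rk r i W v) ?_ ?_
    · intro v hv
      rw [Finset.mem_coe, child, Finset.mem_filter] at hv
      rw [Finset.mem_coe, Finset.mem_Ico]
      rw [← hv.2]
      exact ⟨Nat.div_mul_le_self _ _, Nat.lt_mul_of_div_lt (Nat.lt_succ_self _) hc⟩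
    · intro u hu v hv huv
      rw [Finset.mem_coe, child, Finset.mem_filter] at hu hv
      simp only at huv
      by_contra hne
      rcases lt_or_gt_of_ne (fun h => hne (hr i h) : r i u ≠ r i v) with h | h
      · exact absurd huv (rk_lt hu.1 h).ne
      · exact absurd huv (rk_lt hv.1 h).ne'
  rw [Nat.card_Ico] at h1
  have : (j + 1) * c - j * c = c := by rw [Nat.add_mul, Nat.one_mul]; omega
  omega

open scoped Classical in
lemma near_card [Fintype V] {r : Fin m → V → ℕ} (hr : ∀ i, Function.Injective (r i)) {s w : ℕ}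
    (hs : 0 < s) (hw : 0 < w) : ∀ (t : ℕ) (W : Finset V), W.card ≤ s ^ t * w → ∀ a : V,
    (Finset.univ.filter fun b => near r s w t W a b).card ≤ m ^ t * w
  | 0, W, hW, a => by
    have h1 : (Finset.univ.filter fun b => near r s w 0 W a b) ⊆ W := by
      intro b hb
      rw [Finset.mem_filter] at hb
      exact hb.2.2
    have := Finset.card_le_card h1
    simpa using this.trans (by simpa using hW)
  | t + 1, W, hW, a => by
    have h1 : (Finset.univ.filter fun b => near r s w (t + 1) W a b) ⊆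
        (Finset.univ : Finset (Fin m)).biUnion fun i => Finset.univ.filter fun b =>
          near r s w t (child r (s ^ t * w) i (rk r i W a / (s ^ t * w)) W) a b := by
      intro b hb
      rw [Finset.mem_filter] at hb
      obtain ⟨i, j, h⟩ := hb.2
      rw [Finset.mem_biUnion]
      refine ⟨i, Finset.mem_univ _, ?_⟩
      have h2 := (near_mem r s w t _ a b h).1
      rw [child, Finset.mem_filter] at h2
      rw [Finset.mem_filter, h2.2]
      exact ⟨Finset.mem_univ _, h⟩
    refine (Finset.card_le_card h1).trans ?_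
    refine (Finset.card_biUnion_le_card_mul _ _ (m ^ t * w) fun i _ => ?_).trans ?_
    · exact near_card hr hs hw t _ (child_card hr (by positivity) i _ W) a
    · rw [Finset.card_univ, Fintype.card_fin, pow_succ]
      apply le_of_eq
      ring

/-- two edges are separated in the order `r` -/
def Sep (r : V → ℕ) (e e' : V × V) : Prop :=
  (r e.1 < r e'.1 ∧ r e.1 < r e'.2 ∧ r e.2 < r e'.1 ∧ r e.2 < r e'.2) ∨
    (r e'.1 < r e.1 ∧ r e'.1 < r e.2 ∧ r e'.2 < r e.1 ∧ r e'.2 < r e.2)

open scoped Classical in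
lemma cross_count {r : Fin m → V → ℕ} (hr : ∀ i, Function.Injective (r i)) {s w : ℕ}
    (hs : 0 < s) (hw : 0 < w) (hms : 2 ≤ m * s) (E : Finset (V × V))
    (hE : ∀ e ∈ E, ∀ e' ∈ E, e ≠ e' → ∃ i, Sep (r i) e e') :
    ∀ (t : ℕ) (W : Finset V), W.card ≤ s ^ t * w →
      (E.filter fun e => e.1 ∈ W ∧ e.2 ∈ W ∧ ¬ near r s w t W e.1 e.2).card ≤
        s ^ (2 * m) * ((m * s) ^ t - 1)
  | 0, W, hW => by
    have : (E.filter fun e => e.1 ∈ W ∧ e.2 ∈ W ∧ ¬ near r s w 0 W e.1 e.2) = ∅ := by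
      rw [Finset.filter_eq_empty_iff]
      rintro e _ ⟨h1, h2, h3⟩
      exact h3 ⟨h1, h2⟩
    rw [this]; simp
  | t + 1, W, hW => by
    set c := s ^ t * w with hc
    have hcpos : 0 < c := by positivity
    have hWc : W.card ≤ s * c := by rw [hc, ← Nat.mul_assoc, ← pow_succ']; exact hW
    have hblk : ∀ i, ∀ v ∈ W, rk r i W v / c < s := by
      intro i v hv
      rw [Nat.div_lt_iff_lt_mul hcpos]
      exact (rk_lt_card hv).trans_le hWc
    set C : Finset (V × V) := E.filter fun e => e.1 ∈ W ∧ e.2 ∈ W ∧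
      ∀ i, rk r i W e.1 / c ≠ rk r i W e.2 / c with hC
    have hCcard : C.card ≤ s ^ (2 * m) := by
      have h1 : C.card ≤
          (Fintype.piFinset fun _ : Fin m => Finset.range s ×ˢ Finset.range s).card := by
        refine Finset.card_le_card_of_injOn
          (fun e i => (rk r i W e.1 / c, rk r i W e.2 / c)) ?_ ?_
        · intro e he
          rw [Finset.mem_coe, hC, Finset.mem_filter] at he
          rw [Finset.mem_coe, Fintype.mem_piFinset]
          intro i
          rw [Finset.mem_product, Finset.mem_range, Finset.mem_range]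
          exact ⟨hblk i _ he.2.1, hblk i _ he.2.2.1⟩
        · intro e he e' he' hee
          rw [Finset.mem_coe, hC, Finset.mem_filter] at he he'
          by_contra hne
          obtain ⟨i, hi⟩ := hE e he.1 e' he'.1 hne
          have h2 := congrFun hee i
          simp only [Prod.mk.injEq] at h2
          have h3 := he.2.2.2 i
          have mono : ∀ u v, r i u < r i v → rk r i W u / c ≤ rk r i W v / c := fun u v huv =>
            Nat.div_le_div_right (rk_le huv.le)
          rcases hi with ⟨g1, g2, g3, g4⟩ | ⟨g1, g2, g3, g4⟩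
          · have k2 := mono _ _ g2
            have k3 := mono _ _ g3
            omega
          · have k2 := mono _ _ g2
            have k3 := mono _ _ g3
            omega
      rw [Fintype.card_piFinset] at h1
      simp only [Finset.card_product, Finset.card_range, Finset.prod_const, Finset.card_univ,
        Fintype.card_fin] at h1
      rw [pow_mul, pow_two]
      exact h1
    have hsub : (E.filter fun e => e.1 ∈ W ∧ e.2 ∈ W ∧ ¬ near r s w (t + 1) W e.1 e.2) ⊆
        C ∪ ((Finset.univ : Finset (Fin m)) ×ˢ Finset.range s).biUnion fun p =>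
          E.filter fun e => e.1 ∈ child r c p.1 p.2 W ∧ e.2 ∈ child r c p.1 p.2 W ∧
            ¬ near r s w t (child r c p.1 p.2 W) e.1 e.2 := by
      intro e he
      rw [Finset.mem_filter] at he
      obtain ⟨he1, he2, he3, he4⟩ := he
      rw [Finset.mem_union]
      by_cases h : ∀ i, rk r i W e.1 / c ≠ rk r i W e.2 / c
      · left
        rw [hC, Finset.mem_filter]
        exact ⟨he1, he2, he3, h⟩
      · right
        push Not at h
        obtain ⟨i, hi⟩ := h
        rw [Finset.mem_biUnion]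
        refine ⟨(i, rk r i W e.1 / c), ?_, ?_⟩
        · rw [Finset.mem_product, Finset.mem_range]
          exact ⟨Finset.mem_univ _, hblk i _ he2⟩
        · rw [Finset.mem_filter]
          refine ⟨he1, ?_, ?_, ?_⟩
          · rw [child, Finset.mem_filter]; exact ⟨he2, rfl⟩
          · rw [child, Finset.mem_filter]; exact ⟨he3, hi.symm⟩
          · intro hn
            exact he4 ⟨i, _, hn⟩
    refine (Finset.card_le_card hsub).trans ((Finset.card_union_le _ _).trans ?_)
    have h2 := Finset.card_biUnion_le_card_mul ((Finset.univ : Finset (Fin m)) ×ˢ Finset.range s)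
      (fun p => E.filter fun e => e.1 ∈ child r c p.1 p.2 W ∧ e.2 ∈ child r c p.1 p.2 W ∧
            ¬ near r s w t (child r c p.1 p.2 W) e.1 e.2) (s ^ (2 * m) * ((m * s) ^ t - 1))
      (fun p _ => cross_count hr hs hw hms E hE t _ (child_card hr hcpos p.1 p.2 W))
    rw [Finset.card_product, Finset.card_univ, Fintype.card_fin, Finset.card_range] at h2
    refine (Nat.add_le_add hCcard h2).trans ?_
    have h3 : 1 ≤ (m * s) ^ t := Nat.one_le_pow _ _ (by omega)
    obtain ⟨y, hy⟩ : ∃ y, (m * s) ^ t = y + 1 := ⟨(m * s) ^ t - 1, by omega⟩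
    rw [pow_succ, hy]
    obtain ⟨x, hx⟩ : ∃ x, m * s = x + 2 := ⟨m * s - 2, by omega⟩
    rw [hx]
    have h4 : (y + 1) * (x + 2) - 1 = 1 + (y * (x + 2) + x) := by
      have : (y + 1) * (x + 2) = y * (x + 2) + x + 2 := by ring
      omega
    rw [h4, Nat.add_sub_cancel]
    have h5 : s ^ (2 * m) * (1 + (y * (x + 2) + x)) =
      s ^ (2 * m) + (x + 2) * (s ^ (2 * m) * y) + s ^ (2 * m) * x := by ring
    rw [h5]
    exact Nat.le_add_right _ _

end windows

/-! ### Counting permutations -/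

open scoped Classical in
lemma count_perm {n K X : ℕ} (N : Fin n → Finset (Fin n)) (hK : ∀ a, (N a).card ≤ K)
    (hK1 : 1 ≤ K) (hn : 1 ≤ n) (S : Finset (Equiv.Perm (Fin n)))
    (hS : ∀ σ ∈ S, (Finset.univ.filter fun a => σ a ∉ N a).card ≤ X) :
    S.card ≤ 2 ^ n * (n ^ X * K ^ n) := by
  have h1 : S.image (fun σ : Equiv.Perm (Fin n) => (σ : Fin n → Fin n)) ⊆
      ((Finset.univ : Finset (Finset (Fin n))).filter fun Z => Z.card ≤ X).biUnion fun Z =>
        Fintype.piFinset fun a => if a ∈ Z then Finset.univ else N a := by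
    intro f hf
    rw [Finset.mem_image] at hf
    obtain ⟨σ, hσ, rfl⟩ := hf
    rw [Finset.mem_biUnion]
    refine ⟨Finset.univ.filter fun a => σ a ∉ N a, ?_, ?_⟩
    · rw [Finset.mem_filter]
      exact ⟨Finset.mem_univ _, hS σ hσ⟩
    · rw [Fintype.mem_piFinset]
      intro a
      split_ifs with h
      · exact Finset.mem_univ _
      · rw [Finset.mem_filter, not_and] at h
        exact not_not.1 (h (Finset.mem_univ _))
  have h2 := Finset.card_le_card h1
  rw [Finset.card_image_of_injective _ Equiv.coe_fn_injective] at h2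
  refine h2.trans ?_
  refine (Finset.card_biUnion_le_card_mul _ _ (n ^ X * K ^ n) fun Z hZ => ?_).trans ?_
  · rw [Finset.mem_filter] at hZ
    rw [Fintype.card_piFinset]
    have h3 : ∀ a, (if a ∈ Z then (Finset.univ : Finset (Fin n)) else N a).card ≤
        (if a ∈ Z then n else 1) * K := by
      intro a
      split_ifs
      · rw [Finset.card_univ, Fintype.card_fin]
        exact Nat.le_mul_of_pos_right _ hK1
      · rw [one_mul]; exact hK a
    refine (Finset.prod_le_prod' fun a _ => h3 a).trans ?_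
    rw [Finset.prod_mul_distrib, Finset.prod_const, Finset.card_univ, Fintype.card_fin]
    refine Nat.mul_le_mul_right _ ?_
    rw [Finset.prod_ite, Finset.prod_const_one, mul_one, Finset.prod_const]
    refine Nat.pow_le_pow_right hn ?_
    refine le_trans (Finset.card_le_card ?_) hZ.2
    intro a ha
    rw [Finset.mem_filter] at ha
    exact ha.2
  · refine Nat.mul_le_mul_right _ ?_
    refine (Finset.card_filter_le _ _).trans ?_
    rw [Finset.card_univ, Fintype.card_finset, Fintype.card_fin]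

/-! ### Linear extensions -/

lemma exists_ext {V : Type} [Fintype V] (y : V → ℝ) :
    ∃ τ : V ≃ Fin (Fintype.card V), ∀ u v, y u < y v → τ u < τ v := by
  classical
  let f : V → ℝ ×ₗ Fin (Fintype.card V) := fun v => toLex (y v, Fintype.equivFin V v)
  have hf : Function.Injective f := by
    intro u v huv
    have := congrArg (fun z => (ofLex z).2) huv
    simpa [f] using this
  have hlt : ∀ v, (Finset.univ.filter fun w => f w < f v).card < Fintype.card V := by
    intro v
    refine lt_of_lt_of_eq ?_ Finset.card_univ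
    apply Finset.card_lt_card
    rw [Finset.ssubset_iff_of_subset (Finset.filter_subset _ _)]
    exact ⟨v, Finset.mem_univ _, by simp⟩
  let g : V → Fin (Fintype.card V) := fun v => ⟨(Finset.univ.filter fun w => f w < f v).card, hlt v⟩
  have hg : ∀ u v, f u < f v → g u < g v := by
    intro u v huv
    rw [Fin.lt_def]
    apply Finset.card_lt_card
    rw [Finset.ssubset_iff_of_subset]
    · exact ⟨u, by simp [huv], by simp⟩
    · intro x hx
      rw [Finset.mem_filter] at hx ⊢
      exact ⟨hx.1, hx.2.trans huv⟩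
  have hinj : Function.Injective g := by
    intro u v huv
    by_contra hne
    rcases lt_or_gt_of_ne (fun h => hne (hf h) : f u ≠ f v) with h | h
    · exact absurd huv (hg u v h).ne
    · exact absurd huv (hg v u h).ne'
  have hbij : Function.Bijective g :=
    (Fintype.bijective_iff_injective_and_card g).2 ⟨hinj, by simp⟩
  refine ⟨Equiv.ofBijective g hbij, fun u v huv => ?_⟩
  apply hg
  rw [Prod.Lex.toLex_lt_toLex]
  left
  exact huv

/-- two edges are separated by the real function `y` -/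
def SepR {V : Type} (y : V → ℝ) (e e' : V × V) : Prop :=
  (y e.1 < y e'.1 ∧ y e.1 < y e'.2 ∧ y e.2 < y e'.1 ∧ y e.2 < y e'.2) ∨
    (y e'.1 < y e.1 ∧ y e'.1 < y e.2 ∧ y e'.2 < y e.1 ∧ y e'.2 < y e.2)

open scoped Classical in
/-- the permutations whose matchings are pairwise separated by the functions `y i` -/
noncomputable def compat {n m : ℕ} (y : Fin m → (Fin n ⊕ Fin n) → ℝ) :
    Finset (Equiv.Perm (Fin n)) :=
  Finset.univ.filter fun σ => ∀ a a', a ≠ a' →
    ∃ i, SepR (y i) (Sum.inl a, Sum.inr (σ a)) (Sum.inl a', Sum.inr (σ a'))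

lemma compat_count {n m s t w : ℕ} (hs : 0 < s) (hw : 0 < w) (hm : 0 < m) (hms : 2 ≤ m * s)
    (hn1 : 1 ≤ n) (hn : 2 * n = s ^ t * w) (y : Fin m → (Fin n ⊕ Fin n) → ℝ) :
    (compat y).card ≤ 2 ^ n * (n ^ (s ^ (2 * m) * (m * s) ^ t) * (m ^ t * w) ^ n) := by
  classical
  choose τ hτ using fun i => exists_ext (y i)
  set r : Fin m → (Fin n ⊕ Fin n) → ℕ := fun i v => τ i v with hr
  have hrinj : ∀ i, Function.Injective (r i) := fun i => Fin.val_injective.comp (τ i).injective
  have hcard : (Finset.univ : Finset (Fin n ⊕ Fin n)).card ≤ s ^ t * w := by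
    rw [Finset.card_univ, Fintype.card_sum, Fintype.card_fin]; omega
  set N : Fin n → Finset (Fin n) := fun a =>
    Finset.univ.filter fun b => near r s w t Finset.univ (Sum.inl a) (Sum.inr b) with hN
  refine count_perm N ?_ (Nat.mul_pos (pow_pos hm _) hw) hn1 _ ?_
  · intro a
    have h1 := near_card hrinj hs hw t Finset.univ hcard (Sum.inl a)
    refine le_trans ?_ h1
    refine Finset.card_le_card_of_injOn (fun b => Sum.inr b) ?_ (Sum.inr_injective.injOn)
    intro b hb
    rw [Finset.mem_coe, hN, Finset.mem_filter] at hb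
    rw [Finset.mem_coe, Finset.mem_filter]
    exact ⟨Finset.mem_univ _, hb.2⟩
  · intro σ hσ
    rw [compat, Finset.mem_filter] at hσ
    set E : Finset ((Fin n ⊕ Fin n) × (Fin n ⊕ Fin n)) :=
      Finset.univ.image fun a => (Sum.inl a, Sum.inr (σ a)) with hE
    have hsep : ∀ e ∈ E, ∀ e' ∈ E, e ≠ e' → ∃ i, Sep (r i) e e' := by
      intro e he e' he' hne
      rw [hE, Finset.mem_image] at he he'
      obtain ⟨a, _, rfl⟩ := he
      obtain ⟨a', _, rfl⟩ := he'
      obtain ⟨i, hi⟩ := hσ.2 a a' (fun h => hne (by rw [h]))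
      refine ⟨i, ?_⟩
      rcases hi with ⟨h1, h2, h3, h4⟩ | ⟨h1, h2, h3, h4⟩
      · exact Or.inl ⟨hτ i _ _ h1, hτ i _ _ h2, hτ i _ _ h3, hτ i _ _ h4⟩
      · exact Or.inr ⟨hτ i _ _ h1, hτ i _ _ h2, hτ i _ _ h3, hτ i _ _ h4⟩
    have h1 := cross_count hrinj hs hw hms E hsep t Finset.univ hcard
    have h2 : (Finset.univ.filter fun a => σ a ∉ N a).card ≤
        (E.filter fun e => e.1 ∈ Finset.univ ∧ e.2 ∈ Finset.univ ∧
          ¬ near r s w t Finset.univ e.1 e.2).card := by
      refine Finset.card_le_card_of_injOn (fun a => (Sum.inl a, Sum.inr (σ a))) ?_ ?_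
      · intro a ha
        rw [Finset.mem_coe, Finset.mem_filter] at ha
        rw [Finset.mem_coe, Finset.mem_filter]
        refine ⟨Finset.mem_image_of_mem _ (Finset.mem_univ _), Finset.mem_univ _,
          Finset.mem_univ _, ?_⟩
        intro h
        apply ha.2
        rw [hN, Finset.mem_filter]
        exact ⟨Finset.mem_univ _, h⟩
      · intro a _ a' _ h
        simpa using h
    refine h2.trans (le_trans (le_of_eq ?_) (h1.trans (Nat.mul_le_mul_left _ (Nat.sub_le _ _))))
    congr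

/-! ### The pigeonhole argument -/

/-- vertices of one component -/
abbrev Vc (k n : ℕ) : Type := (Fin k × Fin n) ⊕ (Fin k × Fin n)

/-- the index set of the components -/
abbrev Idx (k n : ℕ) : Type := Fin k → Fin k → Equiv.Perm (Fin n)

lemma pigeon {k n m s t w : ℕ} (hs : 0 < s) (hw : 0 < w) (hm : 0 < m) (hms : 2 ≤ m * s)
    (hn1 : 1 ≤ n) (hn : 2 * n = s ^ t * w) (a : Fin m → E3) (x : Idx k n → Vc k n → E3)
    (hx : ∀ σ : Idx k n, ∀ p q, ∀ b b' : Fin n, b ≠ b' → ∃ i, SepR (fun v => inner ℝ (a i) (x σ v))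
      (Sum.inl (p, b), Sum.inr (q, σ p q b)) (Sum.inl (p, b'), Sum.inr (q, σ p q b'))) :
    (n.factorial ^ k) ^ k ≤
      ((2 ^ n * (n ^ (s ^ (2 * m) * (m * s) ^ t) * (m ^ t * w) ^ n)) ^ k) ^ k *
        (m * (2 * (k * n)) ^ 2 + 1) ^ (3 * (2 * (k * n))) := by
  classical
  set F := 2 ^ n * (n ^ (s ^ (2 * m) * (m * s) ^ t) * (m ^ t * w) ^ n) with hF
  let pat : Idx k n → Finset (Fin m × Vc k n × Vc k n) := fun σ =>
    Finset.univ.filter fun z => inner ℝ (a z.1) (x σ z.2.1) < inner ℝ (a z.1) (x σ z.2.2)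
  have hfib : ∀ A ∈ (Finset.univ : Finset (Idx k n)).image pat,
      ((Finset.univ : Finset (Idx k n)).filter fun σ => pat σ = A).card ≤ (F ^ k) ^ k := by
    intro A hA
    rw [Finset.mem_image] at hA
    obtain ⟨σ₀, _, rfl⟩ := hA
    let y : Fin k → Fin k → Fin m → (Fin n ⊕ Fin n) → ℝ := fun p q i v =>
      inner ℝ (a i) (x σ₀ (Sum.map (fun b => (p, b)) (fun b => (q, b)) v))
    have hsub : ((Finset.univ : Finset (Idx k n)).filter fun σ => pat σ = pat σ₀) ⊆
        Fintype.piFinset fun p => Fintype.piFinset fun q => compat (y p q) := by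
      intro σ hσ
      rw [Finset.mem_filter] at hσ
      rw [Fintype.mem_piFinset]
      intro p
      rw [Fintype.mem_piFinset]
      intro q
      rw [compat, Finset.mem_filter]
      refine ⟨Finset.mem_univ _, fun b b' hbb => ?_⟩
      obtain ⟨i, hi⟩ := hx σ p q b b' hbb
      have tr : ∀ u v : Vc k n, inner ℝ (a i) (x σ u) < inner ℝ (a i) (x σ v) →
          inner ℝ (a i) (x σ₀ u) < inner ℝ (a i) (x σ₀ v) := by
        intro u v huv
        have h1 : (i, u, v) ∈ pat σ := Finset.mem_filter.2 ⟨Finset.mem_univ _, huv⟩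
        rw [hσ.2] at h1
        exact (Finset.mem_filter.1 h1).2
      refine ⟨i, ?_⟩
      rcases hi with ⟨h1, h2, h3, h4⟩ | ⟨h1, h2, h3, h4⟩
      · exact Or.inl ⟨tr _ _ h1, tr _ _ h2, tr _ _ h3, tr _ _ h4⟩
      · exact Or.inr ⟨tr _ _ h1, tr _ _ h2, tr _ _ h3, tr _ _ h4⟩
    refine (Finset.card_le_card hsub).trans ?_
    rw [Fintype.card_piFinset]
    refine (Finset.prod_le_pow_card _ _ (F ^ k) fun p _ => ?_).trans (by simp)
    rw [Fintype.card_piFinset]
    refine (Finset.prod_le_pow_card _ _ F fun q _ => ?_).trans (by simp)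
    exact compat_count hs hw hm hms hn1 hn (y p q)
  have h1 := Finset.card_le_mul_card_image (Finset.univ : Finset (Idx k n)) ((F ^ k) ^ k) hfib
  have h2 : ((Finset.univ : Finset (Idx k n)).image pat).card ≤
      (m * (2 * (k * n)) ^ 2 + 1) ^ (3 * (2 * (k * n))) := by
    have h3 := pattern_count (ι := Fin m × Vc k n × Vc k n) (E := Vc k n → E3)
      (fun z => ((innerSL ℝ (a z.1)).toLinearMap).comp
        (LinearMap.proj (R := ℝ) (φ := fun _ : Vc k n => E3) z.2.2 - LinearMap.proj z.2.1))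
      ((Finset.univ : Finset (Idx k n)).image pat) (by
        intro S hS
        rw [Finset.mem_image] at hS
        obtain ⟨σ, _, rfl⟩ := hS
        refine ⟨x σ, fun z => ?_⟩
        rw [Finset.mem_filter]
        simp [inner_sub_right, sub_pos])
    have h4 : Fintype.card (Fin m × Vc k n × Vc k n) = m * (2 * (k * n)) ^ 2 := by
      simp only [Fintype.card_prod, Fintype.card_fin, Fintype.card_sum]
      ring
    have h5 : Module.finrank ℝ (Vc k n → E3) = 3 * (2 * (k * n)) := by
      rw [Module.finrank_pi_fintype]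
      simp only [finrank_euclideanSpace, Fintype.card_fin, Finset.sum_const, Finset.card_univ,
        Fintype.card_sum, Fintype.card_prod, smul_eq_mul]
      ring
    rw [h4, h5] at h3
    exact h3
  have h6 : (Finset.univ : Finset (Idx k n)).card = (n.factorial ^ k) ^ k := by
    rw [Finset.card_univ, Fintype.card_fun, Fintype.card_fun, Fintype.card_perm,
      Fintype.card_fin, Fintype.card_fin]
  rw [h6] at h1
  exact h1.trans (Nat.mul_le_mul_left _ h2)

/-! ### The numerical contradiction -/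

lemma pow_self_le (n : ℕ) : n ^ n ≤ 3 ^ n * n.factorial := by
  have h1 := Real.pow_div_factorial_le_exp (n : ℝ) (Nat.cast_nonneg n) n
  have h2 : Real.exp n ≤ 3 ^ n := by
    have h3 : Real.exp n = Real.exp 1 ^ n := by rw [← Real.exp_nat_mul, mul_one]
    rw [h3]
    exact pow_le_pow_left₀ (Real.exp_pos 1).le (by linarith [Real.exp_one_lt_d9]) n
  have h4 : (0 : ℝ) < n.factorial := by exact_mod_cast Nat.factorial_pos n
  rw [div_le_iff₀ h4] at h1
  have h5 : ((n : ℝ) ^ n) ≤ 3 ^ n * n.factorial :=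
    h1.trans (mul_le_mul_of_nonneg_right h2 h4.le)
  exact_mod_cast h5

lemma numeric {m n z : ℕ} (hm : 0 < m) (hn : 2 * n = z ^ 4)
    (hz : 12 ^ 8 * (9216 * m + 1) * (m ^ (4 * m)) ^ 8 < z) :
    ((2 ^ n * (n ^ (m ^ (4 * m) * z ^ 3) * (m ^ (4 * m) * z ^ 2) ^ n)) ^ 48) ^ 48 *
        (m * (2 * (48 * n)) ^ 2 + 1) ^ (3 * (2 * (48 * n))) < (n.factorial ^ 48) ^ 48 := by
  have hL1 : 1 ≤ m ^ (4 * m) := Nat.one_le_pow _ _ hm
  generalize m ^ (4 * m) = L at hz hL1 ⊢
  obtain ⟨X, hX⟩ : ∃ X, X = L * z ^ 3 := ⟨_, rfl⟩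
  rw [← hX]
  obtain ⟨C, hC⟩ : ∃ C, C = 12 ^ 8 * (9216 * m + 1) * L ^ 8 := ⟨_, rfl⟩
  rw [← hC] at hz
  have hC16 : 16 * L ≤ C := by
    have h1 : L ≤ L ^ 8 := Nat.le_self_pow (by norm_num) L
    have h2 : 16 ≤ 12 ^ 8 * (9216 * m + 1) := by
      have : 12 ^ 8 ≤ 12 ^ 8 * (9216 * m + 1) := Nat.le_mul_of_pos_right _ (by omega)
      omega
    rw [hC]
    exact Nat.mul_le_mul h2 h1
  have hz1 : 1 ≤ z := by omega
  have hn1 : 1 ≤ n := by
    have : 1 ≤ z ^ 4 := Nat.one_le_pow _ _ hz1
    omega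
  have hnz : n ≤ z ^ 4 := by omega
  by_contra hcon
  rw [not_lt] at hcon
  -- take the root of order 288
  have e1 : (n.factorial ^ 48) ^ 48 = (n.factorial ^ 8) ^ 288 := by
    rw [← pow_mul, ← pow_mul]
  have e2 : ((2 ^ n * (n ^ X * (L * z ^ 2) ^ n)) ^ 48) ^ 48 *
        (m * (2 * (48 * n)) ^ 2 + 1) ^ (3 * (2 * (48 * n))) =
      ((2 ^ n * (n ^ X * (L * z ^ 2) ^ n)) ^ 8 * (m * (2 * (48 * n)) ^ 2 + 1) ^ n) ^ 288 := by
    rw [mul_pow _ _ 288, ← pow_mul, ← pow_mul, ← pow_mul]
    congr 2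
    ring
  rw [e1, e2] at hcon
  have h1 : n.factorial ^ 8 ≤
      (2 ^ n * (n ^ X * (L * z ^ 2) ^ n)) ^ 8 * (m * (2 * (48 * n)) ^ 2 + 1) ^ n :=
    (Nat.pow_le_pow_iff_left (by norm_num)).1 hcon
  have h2 : (n ^ n) ^ 8 ≤ (3 ^ n) ^ 8 * n.factorial ^ 8 := by
    rw [← mul_pow]
    exact Nat.pow_le_pow_left (pow_self_le n) 8
  have h3 : m * (2 * (48 * n)) ^ 2 + 1 ≤ (9216 * m + 1) * z ^ 8 := by
    have : n ^ 2 ≤ z ^ 8 := by
      calc n ^ 2 ≤ (z ^ 4) ^ 2 := Nat.pow_le_pow_left hnz 2
        _ = z ^ 8 := by ring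
    have h4 : 1 ≤ z ^ 8 := Nat.one_le_pow _ _ hz1
    nlinarith
  have h4 : z ^ (32 * n) = (2 ^ n) ^ 8 * (n ^ n) ^ 8 := by
    have : z ^ (32 * n) = ((z ^ 4) ^ n) ^ 8 := by
      rw [← pow_mul, ← pow_mul]; congr 1; ring
    rw [this, ← hn, mul_pow, mul_pow]
  have h5 : z ^ (32 * n) ≤ C ^ n * (z ^ (24 * n) * z ^ (32 * X)) := by
    calc z ^ (32 * n) = (2 ^ n) ^ 8 * (n ^ n) ^ 8 := h4
      _ ≤ (2 ^ n) ^ 8 * ((3 ^ n) ^ 8 * n.factorial ^ 8) := Nat.mul_le_mul_left _ h2
      _ ≤ (2 ^ n) ^ 8 * ((3 ^ n) ^ 8 * ((2 ^ n * (n ^ X * (L * z ^ 2) ^ n)) ^ 8 *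
            ((9216 * m + 1) * z ^ 8) ^ n)) := by
          refine Nat.mul_le_mul_left _ (Nat.mul_le_mul_left _ (h1.trans ?_))
          exact Nat.mul_le_mul_left _ (Nat.pow_le_pow_left h3 n)
      _ ≤ (2 ^ n) ^ 8 * ((3 ^ n) ^ 8 * ((2 ^ n * ((z ^ 4) ^ X * (L * z ^ 2) ^ n)) ^ 8 *
            ((9216 * m + 1) * z ^ 8) ^ n)) := by
          refine Nat.mul_le_mul_left _ (Nat.mul_le_mul_left _ (Nat.mul_le_mul_right _ ?_))
          refine Nat.pow_le_pow_left (Nat.mul_le_mul_left _ (Nat.mul_le_mul_right _ ?_)) 8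
          exact Nat.pow_le_pow_left hnz X
      _ = C ^ n * (z ^ (24 * n) * z ^ (32 * X)) := by
          have g1 : (2 : ℕ) ^ n * 2 ^ n * 3 ^ n = 12 ^ n := by
            rw [← mul_pow, ← mul_pow]
            norm_num
          rw [hC]
          have g2 : (12 ^ 8 * (9216 * m + 1) * L ^ 8) ^ n =
              (12 ^ n) ^ 8 * (9216 * m + 1) ^ n * (L ^ n) ^ 8 := by
            rw [mul_pow, mul_pow, pow_right_comm 12 8 n, pow_right_comm L 8 n]
          rw [g2, ← g1]
          have g3 : z ^ (24 * n) = (z ^ n) ^ 24 := by rw [← pow_mul, Nat.mul_comm]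
          have g4 : z ^ (32 * X) = (z ^ X) ^ 32 := by rw [← pow_mul, Nat.mul_comm]
          have g5 : (z ^ 4) ^ X = (z ^ X) ^ 4 := pow_right_comm z 4 X
          have g6 : (L * z ^ 2) ^ n = L ^ n * (z ^ n) ^ 2 := by
            rw [mul_pow, pow_right_comm z 2 n]
          have g7 : ((9216 * m + 1) * z ^ 8) ^ n = (9216 * m + 1) ^ n * (z ^ n) ^ 8 := by
            rw [mul_pow, pow_right_comm z 8 n]
          rw [g3, g4, g5, g6, g7]
          generalize (2 : ℕ) ^ n = A
          generalize (3 : ℕ) ^ n = B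
          generalize (9216 * m + 1) ^ n = D
          generalize L ^ n = G
          generalize z ^ n = H
          generalize z ^ X = J
          ring
  have h6 : 32 * X ≤ 4 * n := by
    have g1 : 16 * L * z ^ 3 ≤ z * z ^ 3 := Nat.mul_le_mul_right _ (by omega)
    have g2 : z * z ^ 3 = z ^ 4 := by ring
    have g3 : 32 * X = 2 * (16 * L * z ^ 3) := by rw [hX]; ring
    omega
  have h7 : z ^ (32 * X) ≤ z ^ (4 * n) := Nat.pow_le_pow_right hz1 h6
  have h8 : z ^ (28 * n) * z ^ (4 * n) ≤ z ^ (28 * n) * C ^ n := by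
    calc z ^ (28 * n) * z ^ (4 * n) = z ^ (32 * n) := by rw [← pow_add]; congr 1; ring
      _ ≤ C ^ n * (z ^ (24 * n) * z ^ (4 * n)) :=
          h5.trans (Nat.mul_le_mul_left _ (Nat.mul_le_mul_left _ h7))
      _ = z ^ (28 * n) * C ^ n := by
          rw [← pow_add, Nat.mul_comm, ← Nat.add_mul]
  have h9 : z ^ (4 * n) ≤ C ^ n := Nat.le_of_mul_le_mul_left h8 (Nat.pow_pos hz1)
  rw [pow_mul] at h9
  have h10 : z ^ 4 ≤ C := (Nat.pow_le_pow_iff_left (by omega)).1 h9
  have h11 : z ≤ z ^ 4 := Nat.le_self_pow (by norm_num) z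
  omega

/-! ### The graphs -/

/-- the disjoint union of all the graphs made of `48 * 48` perfect matchings -/
def bigGraph (k n : ℕ) : SimpleGraph (Idx k n × Vc k n) where
  Adj u v := u.1 = v.1 ∧
    ((∃ p q b, u.2 = Sum.inl (p, b) ∧ v.2 = Sum.inr (q, u.1 p q b)) ∨
      (∃ p q b, v.2 = Sum.inl (p, b) ∧ u.2 = Sum.inr (q, u.1 p q b)))
  symm := ⟨by
    rintro ⟨σ, u⟩ ⟨τ, v⟩ ⟨h1, h2⟩
    simp only at h1 h2
    subst h1
    exact ⟨rfl, h2.symm⟩⟩
  loopless := ⟨by
    rintro ⟨σ, u⟩ ⟨_, ⟨p, q, b, h1, h2⟩ | ⟨p, q, b, h1, h2⟩⟩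
    · rw [h1] at h2; cases h2
    · rw [h1] at h2; cases h2⟩

lemma adj_cases {k n : ℕ} {u v : Idx k n × Vc k n} (h : (bigGraph k n).Adj u v) :
    ∃ σ p q b, (u = (σ, Sum.inl (p, b)) ∧ v = (σ, Sum.inr (q, σ p q b))) ∨
      (v = (σ, Sum.inl (p, b)) ∧ u = (σ, Sum.inr (q, σ p q b))) := by
  obtain ⟨σ, u⟩ := u
  obtain ⟨τ, v⟩ := v
  obtain ⟨h1, h2⟩ := h
  simp only at h1 h2
  subst h1
  rcases h2 with ⟨p, q, b, rfl, rfl⟩ | ⟨p, q, b, rfl, rfl⟩
  · exact ⟨σ, p, q, b, Or.inl ⟨rfl, rfl⟩⟩
  · exact ⟨σ, p, q, b, Or.inr ⟨rfl, rfl⟩⟩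

/-- the key functions -/
noncomputable def key (k n : ℕ) : (Fin k ⊕ Fin k ⊕ Fin k × Fin k) → Idx k n × Vc k n → ℕ
  | .inl _, (σ, .inl (_, b)) => Fintype.equivFin (Idx k n × Fin n) (σ, b)
  | .inl p, (σ, .inr (q, b)) => Fintype.equivFin (Idx k n × Fin n) (σ, (σ p q).symm b)
  | .inr (.inl _), (σ, .inr (_, b)) => Fintype.equivFin (Idx k n × Fin n) (σ, b)
  | .inr (.inl q), (σ, .inl (p, b)) => Fintype.equivFin (Idx k n × Fin n) (σ, σ p q b)
  | .inr (.inr (p, _)), (_, .inl (p', _)) => if p' = p then 0 else 1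
  | .inr (.inr (_, q)), (_, .inr (q', _)) => if q' = q then 0 else 1

lemma exists_family (k n : ℕ) : ∃ F : Finset ((Idx k n × Vc k n) ≃
    Fin (Fintype.card (Idx k n × Vc k n))), F.card ≤ k + (k + k * k) ∧
      PairwiseSuitable (bigGraph k n) F := by
  classical
  choose τ hτ using fun i => exists_ext (fun v => (key k n i v : ℝ))
  refine ⟨Finset.univ.image τ, ?_, ?_⟩
  · refine Finset.card_image_le.trans ?_
    simp [Finset.card_univ]
  · -- it is enough to find a separating key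
    have main : ∀ (σ : Idx k n) (p q : Fin k) (b : Fin n) (σ' : Idx k n) (p' q' : Fin k)
        (b' : Fin n), ((σ, Sum.inl (p, b)) : Idx k n × Vc k n) ≠ (σ', Sum.inl (p', b')) →
        ((σ, Sum.inr (q, σ p q b)) : Idx k n × Vc k n) ≠ (σ', Sum.inr (q', σ' p' q' b')) →
        ∃ i, key k n i (σ, Sum.inl (p, b)) = key k n i (σ, Sum.inr (q, σ p q b)) ∧
          key k n i (σ', Sum.inl (p', b')) = key k n i (σ', Sum.inr (q', σ' p' q' b')) ∧
          key k n i (σ, Sum.inl (p, b)) ≠ key k n i (σ', Sum.inl (p', b')) := by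
      intro σ p q b σ' p' q' b' h1 h2
      by_cases hp : p = p'
      · subst hp
        refine ⟨.inl p, ?_, ?_, ?_⟩
        · simp [key]
        · simp [key]
        · simp only [key]
          intro h
          have := (Fintype.equivFin (Idx k n × Fin n)).injective (Fin.ext h)
          rw [Prod.mk.injEq] at this
          exact h1 (by rw [this.1, this.2])
      · by_cases hq : q = q'
        · subst hq
          refine ⟨.inr (.inl q), ?_, ?_, ?_⟩
          · simp [key]
          · simp [key]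
          · simp only [key]
            intro h
            have := (Fintype.equivFin (Idx k n × Fin n)).injective (Fin.ext h)
            rw [Prod.mk.injEq] at this
            exact h2 (Prod.ext this.1 (congrArg (fun c => Sum.inr (q, c)) this.2))
        · refine ⟨.inr (.inr (p, q)), ?_, ?_, ?_⟩
          · simp [key]
          · simp [key, Ne.symm hp, Ne.symm hq]
          · simp [key, Ne.symm hp]
    intro a b c d hab hcd h1 h2 h3 h4
    obtain ⟨σ, p, q, x, hab⟩ := adj_cases hab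
    obtain ⟨σ', p', q', x', hcd⟩ := adj_cases hcd
    have fin : ∀ i, key k n i (σ, Sum.inl (p, x)) = key k n i (σ, Sum.inr (q, σ p q x)) →
        key k n i (σ', Sum.inl (p', x')) = key k n i (σ', Sum.inr (q', σ' p' q' x')) →
        key k n i (σ, Sum.inl (p, x)) ≠ key k n i (σ', Sum.inl (p', x')) →
        Separates (τ i) a b c d := by
      intro i g1 g2 g3
      have lt : ∀ u v, key k n i u < key k n i v → τ i u < τ i v := by
        intro u v h
        apply hτ
        exact_mod_cast h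
      rcases lt_or_gt_of_ne g3 with g4 | g4
      · left
        rcases hab with ⟨rfl, rfl⟩ | ⟨rfl, rfl⟩ <;> rcases hcd with ⟨rfl, rfl⟩ | ⟨rfl, rfl⟩ <;>
          exact ⟨lt _ _ (by omega), lt _ _ (by omega), lt _ _ (by omega), lt _ _ (by omega)⟩
      · right
        rcases hab with ⟨rfl, rfl⟩ | ⟨rfl, rfl⟩ <;> rcases hcd with ⟨rfl, rfl⟩ | ⟨rfl, rfl⟩ <;>
          exact ⟨lt _ _ (by omega), lt _ _ (by omega), lt _ _ (by omega), lt _ _ (by omega)⟩
    obtain ⟨i, g1, g2, g3⟩ := main σ p q x σ' p' q' x'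
      (by
        rcases hab with ⟨rfl, rfl⟩ | ⟨rfl, rfl⟩ <;> rcases hcd with ⟨rfl, rfl⟩ | ⟨rfl, rfl⟩ <;>
          assumption)
      (by
        rcases hab with ⟨rfl, rfl⟩ | ⟨rfl, rfl⟩ <;> rcases hcd with ⟨rfl, rfl⟩ | ⟨rfl, rfl⟩ <;>
          assumption)
    exact ⟨τ i, Finset.mem_image_of_mem _ (Finset.mem_univ _), fin i g1 g2 g3⟩

lemma sepDim_le (k n : ℕ) : sepDim (bigGraph k n) ≤ k + (k + k * k) := by
  obtain ⟨F, h1, h2⟩ := exists_family k n
  have h3 : sepDim (bigGraph k n) ≤ F.card := Nat.sInf_le ⟨F, h2, rfl⟩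
  exact h3.trans h1

lemma not_separating {m : ℕ} (hm : 0 < m) : ∃ n, ∀ (P : Finset E3)
    (φ : Idx 48 n × Vc 48 n → E3), P.card ≤ m → ¬ PSeparating (bigGraph 48 n) P φ := by
  classical
  obtain ⟨q, hq⟩ : ∃ q, q = 2 * (12 ^ 8 * (9216 * m + 1) * (m ^ (4 * m)) ^ 8 + 1) := ⟨_, rfl⟩
  obtain ⟨z, hz⟩ : ∃ z, z = q ^ (2 * m) := ⟨_, rfl⟩
  have hq2 : 2 ≤ q := by omega
  have hzq : q ≤ z := by rw [hz]; exact Nat.le_self_pow (by omega) q
  have hzlt : 12 ^ 8 * (9216 * m + 1) * (m ^ (4 * m)) ^ 8 < z := by omega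
  obtain ⟨n, hn⟩ : ∃ n, z ^ 4 = 2 * n := by
    have h1 : 2 ∣ q := ⟨_, hq⟩
    have h2 : q ∣ z := by rw [hz]; exact dvd_pow_self q (by omega)
    exact (h1.trans h2).trans (dvd_pow_self z (by norm_num))
  have hz1 : 1 ≤ z := by omega
  have hn1 : 1 ≤ n := by
    have : 1 ≤ z ^ 4 := Nat.one_le_pow _ _ hz1
    omega
  refine ⟨n, fun P φ hP hφ => ?_⟩
  -- enumerate the normals
  obtain ⟨a, ha⟩ : ∃ a : Fin m → E3, ∀ p ∈ P, ∃ i, a i = p := by
    have e := P.equivFin
    refine ⟨fun i => if h : (i : ℕ) < P.card then (e.symm ⟨i, h⟩ : E3) else 0, fun p hp => ?_⟩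
    refine ⟨⟨e ⟨p, hp⟩, (e ⟨p, hp⟩).2.trans_le hP⟩, ?_⟩
    simp
  have h1 := pigeon (k := 48) (n := n) (m := m) (s := q) (t := 4 * m) (w := q ^ (4 * m))
    (by omega) (by positivity) hm (by nlinarith) hn1
    (by rw [← hn, hz, ← pow_mul, ← pow_add]; congr 1; ring) a
    (fun σ v => φ (σ, v)) (by
      intro σ p p' b b' hbb
      obtain ⟨c, hc, t, ht⟩ := hφ.2 (σ, Sum.inl (p, b)) (σ, Sum.inr (p', σ p p' b))
        (σ, Sum.inl (p, b')) (σ, Sum.inr (p', σ p p' b'))
        ⟨rfl, Or.inl ⟨p, p', b, rfl, rfl⟩⟩ ⟨rfl, Or.inl ⟨p, p', b', rfl, rfl⟩⟩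
        (by simpa using hbb) (by simp) (by simp) (by simpa using hbb)
      obtain ⟨i, rfl⟩ := ha c hc
      refine ⟨i, ?_⟩
      rcases ht with ⟨h2, h3⟩ | ⟨h2, h3⟩
      · left
        have k1 := h2 _ (left_mem_segment ℝ _ _)
        have k2 := h2 _ (right_mem_segment ℝ _ _)
        have k3 := h3 _ (left_mem_segment ℝ _ _)
        have k4 := h3 _ (right_mem_segment ℝ _ _)
        exact ⟨k1.trans k3, k1.trans k4, k2.trans k3, k2.trans k4⟩
      · right
        have k1 := h2 _ (left_mem_segment ℝ _ _)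
        have k2 := h2 _ (right_mem_segment ℝ _ _)
        have k3 := h3 _ (left_mem_segment ℝ _ _)
        have k4 := h3 _ (right_mem_segment ℝ _ _)
        exact ⟨k1.trans k3, k1.trans k4, k2.trans k3, k2.trans k4⟩)
  have h2 := numeric hm hn.symm hzlt
  have e1 : q ^ (2 * m) * (m * q) ^ (4 * m) = m ^ (4 * m) * z ^ 3 := by
    rw [mul_pow, hz]; ring
  have e2 : m ^ (4 * m) * q ^ (4 * m) = m ^ (4 * m) * z ^ 2 := by
    rw [hz, ← pow_mul]; congr 2; ring
  rw [e1, e2] at h1
  exact absurd h1 (not_le.2 h2)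

lemma lt_pi3 {V : Type} {G : SimpleGraph V} {m : ℕ}
    (h : ∀ (P : Finset E3) (φ : V → E3), P.card ≤ m → ¬ PSeparating G P φ) :
    (m : ℕ∞) < pi3 G := by
  have : ((m + 1 : ℕ) : ℕ∞) ≤ pi3 G := by
    unfold pi3
    refine le_iInf fun P => le_iInf fun φ => le_iInf fun _ => le_iInf fun hφ => ?_
    have h1 : ¬ P.card ≤ m := fun hP => h P φ hP hφ
    exact_mod_cast (by omega : m + 1 ≤ P.card)
  refine lt_of_lt_of_le ?_ this
  exact_mod_cast Nat.lt_succ_self m

/-- There is no function `f` with `π₃(G) ≤ f(π(G))` for all finite graphs `G`. -/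
theorem result : ¬ ∃ f : ℕ → ℕ, ∀ (V : Type) [Fintype V] (G : SimpleGraph V),
    pi3 G ≤ (f (sepDim G) : ℕ∞) := by
  rintro ⟨f, hf⟩
  set M := (Finset.range (48 + (48 + 48 * 48) + 1)).sup f + 1 with hM
  obtain ⟨n, hn⟩ := not_separating (m := M) (by omega)
  have h1 := lt_pi3 hn
  have h2 := hf _ (bigGraph 48 n)
  have h3 : f (sepDim (bigGraph 48 n)) ≤ (Finset.range (48 + (48 + 48 * 48) + 1)).sup f :=
    Finset.le_sup (f := f) (Finset.mem_range.2 (Nat.lt_succ_of_le (sepDim_le 48 n)))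
  have h4 : ((f (sepDim (bigGraph 48 n)) : ℕ) : ℕ∞) ≤ (M : ℕ∞) := by
    exact_mod_cast (by omega : f (sepDim (bigGraph 48 n)) ≤ M)
  exact absurd (h2.trans h4) (not_le.2 h1)

end Pool.Agent.Results.MP_38bec9_co.NotBounded
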